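import Pool.Agent.Helper75.PZ.Stmts

set_option autoImplicit false

universe u

open Module Pool.Agent.Helper75.PZ

namespace Pool.Agent.Helper84.PZ

/-- norm for an automorphism of order three -/
def AN_N {F M : Type*} [Field F] [Field M] [Algebra F M] (σ : M ≃ₐ[F] M) (m : M) : M :=
  m * σ m * σ (σ m)

theorem AN_mul {F M : Type*} [Field F] [Field M] [Algebra F M] (σ : M ≃ₐ[F] M) (a b : M) :
    AN_N σ (a * b) = AN_N σ a * AN_N σ b := by
  unfold AN_N
  simp only [map_mul]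
  ring

theorem AN_sig {F M : Type*} [Field F] [Field M] [Algebra F M] (σ : M ≃ₐ[F] M)
    (h3 : ∀ m, σ (σ (σ m)) = m) (a : M) : AN_N σ (σ a) = AN_N σ a := by
  unfold AN_N
  rw [h3]
  ring

theorem AN_zpow {F M : Type*} [Field F] [Field M] [Algebra F M] (σ : M ≃ₐ[F] M)
    (h3 : ∀ m, σ (σ (σ m)) = m) (k : ℤ) : ∀ a : M, AN_N σ ((σ ^ k) a) = AN_N σ a := by
  induction k using Int.induction_on with
  | zero => intro a; simp
  | succ n ih =>
    intro a
    rw [zpow_add_one, AlgEquiv.mul_apply, ih, AN_sig σ h3]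
  | pred n ih =>
    intro a
    rw [zpow_sub_one, AlgEquiv.mul_apply, ih, ← AN_sig σ h3]
    congr 1
    exact σ.apply_symm_apply a

theorem AN_ne {F M : Type*} [Field F] [Field M] [Algebra F M] (σ : M ≃ₐ[F] M) {a : M}
    (ha : a ≠ 0) : AN_N σ a ≠ 0 := by
  unfold AN_N
  have h1 : σ a ≠ 0 := fun h => ha (by rwa [map_eq_zero_iff σ σ.injective] at h)
  have h2 : σ (σ a) ≠ 0 := fun h => h1 (by rwa [map_eq_zero_iff σ σ.injective] at h)
  exact mul_ne_zero (mul_ne_zero ha h1) h2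

theorem AN_sq {M : Type*} [Field M] (k : ℤ) : ((-1 : M) ^ k) * ((-1 : M) ^ k) = 1 := by
  rw [← mul_zpow]
  simp

theorem AN_sign {F M : Type*} [Field F] [Field M] [Algebra F M] (σ : M ≃ₐ[F] M) (k : ℤ) :
    AN_N σ ((-1 : M) ^ k) = (-1 : M) ^ k := by
  unfold AN_N
  have h : σ ((-1 : M) ^ k) = (-1 : M) ^ k := by
    rw [map_zpow₀, map_neg, map_one]
  rw [h, h, AN_sq, one_mul]

theorem AN_two {F M : Type*} [Field F] [Field M] [Algebra F M] (h2 : (2 : F) ≠ 0) :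
    (2 : M) ≠ 0 := by
  intro h
  apply h2
  apply (algebraMap F M).injective
  rw [map_ofNat, map_zero]
  exact h

/-- products of nonzero elements are nonzero (characteristic not two) -/
theorem AN_dom {F K A M : Type*} [Field F] [Field K] [Field M] [Ring A] [Algebra F K]
    [Algebra K A] [Algebra F M] {σ : M ≃ₐ[F] M} {g : A → G2} {c : A → M} (h2 : (2 : F) ≠ 0)
    (hs : SYM (K := K) σ g c) (x y : A) (hx : x ≠ 0) (hy : y ≠ 0) : x * y ≠ 0 := by
  intro h
  have h10 : (2 : M) ≠ 0 := AN_two h2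
  have hcy := hs.c0 y hy
  have hcx := hs.c0 x hx
  have h4 : c y + c y ≠ 0 := by
    rw [← two_mul]
    exact mul_ne_zero h10 hcy
  obtain ⟨hne, hg, hc⟩ := hs.addeq y y hy hy rfl h4
  have h5 := hs.cmul x (y + y) hx hne
  have h6 := hs.cmul x y hx hy
  rw [mul_add, h, add_zero, hg, hc] at h5
  rw [h] at h6
  rw [h6] at h5
  have h7 : c x * (-1 : M) ^ (n1 (g x) * n2 (g y)) ≠ 0 :=
    mul_ne_zero hcx (zpow_ne_zero _ (neg_ne_zero.2 one_ne_zero))
  have h8 := mul_left_cancel₀ h7 h5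
  have h9 := (σ ^ (n1 (g x))).injective h8
  exact hcy (by linear_combination -h9)

theorem st_AN : Pool.Agent.Helper75.PZ.ST_AN.{u} := by
  intro F K A M _ _ _ _ _ _ _ _ σ g c h2 h3 hs i j hi hj hij
  have e0 : algebraMap K A (algebraMap F K (-1)) = -1 := by simp
  have hm := hs.fs (-1) (neg_ne_zero.2 one_ne_zero)
  rw [e0] at hm
  have hneg1 : (-1 : A) ≠ 0 := neg_ne_zero.2 one_ne_zero
  have hji : j * i ≠ 0 := by
    exact AN_dom h2 hs j i hj hi
  have hc : c (-(j * i)) = - c (j * i) := by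
    have h4 := hs.cmul (-1) (j * i) hneg1 hji
    rw [neg_one_mul, hm.1, hm.2] at h4
    rw [h4]
    have e1 : n1 (0 : G2) = 0 := rfl
    rw [e1]
    simp
  have h5 := hs.cmul i j hi hj
  rw [hij, hc, hs.cmul j i hj hi] at h5
  have h6 := congrArg (AN_N σ) h5
  have e2 : -(c j * (-1 : M) ^ (n1 (g j) * n2 (g i)) * (σ ^ (n1 (g j))) (c i)) =
      (-1 : M) ^ (1 : ℤ) * (c j * (-1 : M) ^ (n1 (g j) * n2 (g i)) *
        (σ ^ (n1 (g j))) (c i)) := by
    rw [zpow_one]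
    ring
  rw [e2] at h6
  simp only [AN_mul, AN_sign, AN_zpow σ h3] at h6
  rw [zpow_one] at h6
  have hci := AN_ne σ (hs.c0 i hi)
  have hcj := AN_ne σ (hs.c0 j hj)
  have h7 : AN_N σ (c i) * AN_N σ (c j) *
      ((-1 : M) ^ (n1 (g i) * n2 (g j)) + (-1 : M) ^ (n1 (g j) * n2 (g i))) = 0 := by
    linear_combination -h6
  have h8 : (-1 : M) ^ (n1 (g i) * n2 (g j)) + (-1 : M) ^ (n1 (g j) * n2 (g i)) = 0 := by
    rcases mul_eq_zero.1 h7 with h | h
    · exact absurd h (mul_ne_zero hci hcj)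
    · exact h
  by_contra hodd
  rw [Int.not_odd_iff_even] at hodd
  obtain ⟨k, hk⟩ := hodd
  have e3 : n1 (g i) * n2 (g j) = n1 (g j) * n2 (g i) + (k + k) := by omega
  rw [e3, zpow_add₀ (neg_ne_zero.2 one_ne_zero), zpow_add₀ (neg_ne_zero.2 one_ne_zero),
    AN_sq, mul_one] at h8
  have h9 : (2 : M) * (-1 : M) ^ (n1 (g j) * n2 (g i)) = 0 := by linear_combination h8
  have h10 : (2 : M) ≠ 0 := AN_two h2
  exact mul_ne_zero h10 (zpow_ne_zero _ (neg_ne_zero.2 one_ne_zero)) h9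

end Pool.Agent.Helper84.PZ
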